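import Mathlib

/-! Bessel's inequality for absolutely convergent power series in `e(x)`. -/

set_option autoImplicit false

namespace Pool.Agent.U857.AF

open MeasureTheory Finset

noncomputable section

theorem bessel (c : ℕ → ℂ) (hc : Summable fun n => ‖c n‖) (B : ℝ) (hB : 0 ≤ B)
    (h : ∀ x : ℝ, ‖∑' n : ℕ, c n * Complex.exp (2 * Real.pi * Complex.I * n * x)‖ ≤ B) (s : Finset ℕ) :
    ∑ n ∈ s, ‖c n‖ ^ 2 ≤ B ^ 2 := by
  have : Fact ((0 : ℝ) < 1) := ⟨one_pos⟩
  -- the sum as a continuous function on the circle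
  have hs : Summable fun n : ℕ => c n • (fourier (n : ℤ) : C(AddCircle (1 : ℝ), ℂ)) := by
    refine Summable.of_norm ?_
    simpa only [norm_smul, fourier_norm, mul_one] using hc
  obtain ⟨G, hG⟩ := hs
  have hGx : ∀ t : AddCircle (1 : ℝ), HasSum (fun n : ℕ => c n * fourier (n : ℤ) t) (G t) := by
    intro t
    have h1 := (ContinuousMap.evalCLM ℂ t).hasSum hG
    simpa using h1
  have hnorm : ‖G‖ ≤ B := by
    rw [ContinuousMap.norm_le _ hB]
    intro t
    induction t using QuotientAddGroup.induction_on with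
    | H x =>
      have h1 := (hGx (x : AddCircle (1 : ℝ))).tsum_eq
      rw [← h1]
      refine le_of_eq_of_le ?_ (h x)
      congr 1
      refine tsum_congr fun n => ?_
      rw [fourier_coe_apply]
      congr 2
      push_cast
      ring
  -- Bessel
  have hv : Orthonormal ℂ (fun n : ℕ => @fourierLp 1 _ 2 _ (n : ℤ)) :=
    orthonormal_fourier.comp _ Nat.cast_injective
  let L : C(AddCircle (1 : ℝ), ℂ) →L[ℂ] Lp ℂ 2 (@AddCircle.haarAddCircle 1 _) :=
    ContinuousMap.toLp 2 AddCircle.haarAddCircle ℂ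
  have hL : HasSum (fun n : ℕ => c n • @fourierLp 1 _ 2 _ (n : ℤ)) (L G) := by
    have h1 := L.hasSum hG
    have h2 : (fun n : ℕ => c n • @fourierLp 1 _ 2 _ (n : ℤ)) =
        fun n : ℕ => L (c n • (fourier (n : ℤ) : C(AddCircle (1 : ℝ), ℂ))) := by
      funext n
      rw [map_smul]
    rw [h2]
    exact h1
  have hin : ∀ m : ℕ, inner ℂ (@fourierLp 1 _ 2 _ (m : ℤ)) (L G) = c m := by
    intro m
    have h1 := (innerSL ℂ (@fourierLp 1 _ 2 _ (m : ℤ))).hasSum hL
    have h2 : HasSum (fun n : ℕ => if n = m then c m else 0) (c m) := hasSum_ite_eq m (c m)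
    have h3 : (fun n : ℕ => (innerSL ℂ (@fourierLp 1 _ 2 _ (m : ℤ))) (c n • @fourierLp 1 _ 2 _ (n : ℤ))) =
        fun n : ℕ => if n = m then c m else 0 := by
      funext n
      rw [innerSL_apply_apply, inner_smul_right]
      have h4 := orthonormal_iff_ite.1 hv m n
      rw [h4]
      by_cases hnm : n = m
      · subst hnm
        simp
      · rw [if_neg (Ne.symm hnm), if_neg hnm, mul_zero]
    rw [h3] at h1
    exact h1.unique h2
  have hLn : ‖L G‖ ≤ B := by
    have h1 : ‖L‖ ≤ 1 := by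
      refine (ContinuousMap.toLp_norm_le _).trans ?_
      simp [measureUnivNNReal]
    calc ‖L G‖ ≤ ‖L‖ * ‖G‖ := L.le_opNorm G
      _ ≤ 1 * B := mul_le_mul h1 hnorm (norm_nonneg _) zero_le_one
      _ = B := one_mul B
  have hB2 := hv.sum_inner_products_le (L G) (s := s)
  simp only [hin] at hB2
  exact hB2.trans (pow_le_pow_left₀ (norm_nonneg _) hLn 2)

end

end Pool.Agent.U857.AF
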