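import Mathlib

/-! Cusp forms of weight 3/2: definition and the bound `|f(z)| ≤ C y ^ (-3/4)`. -/

set_option autoImplicit false

namespace Pool.Agent.U857.AF

open UpperHalfPlane CongruenceSubgroup Filter Topology Matrix.SpecialLinearGroup ModularForm
open scoped MatrixGroups Manifold

noncomputable section

/-- Shimura's extension of the quadratic residue symbol `(c / d)` to all integers `c` and odd integers `d`. -/
def sym (c d : ℤ) : ℤ := jacobiSym c d.natAbs * (if c < 0 ∧ d < 0 then -1 else 1)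

/-- The automorphy factor `j(γ, z) = ε_d ^ (-1) (c / d) (c z + d) ^ (1 / 2)` of the theta function, where `(c, d)` is the second row of
`γ`, `ε_d = 1` for `d ≡ 1 (mod 4)` and `ε_d = i` for `d ≡ 3 (mod 4)` (Shimura). -/
def jfac (γ : SL(2, ℤ)) (z : ℍ) : ℂ :=
  (if γ 1 1 % 4 = 1 then 1 else Complex.I)⁻¹ * (sym (γ 1 0) (γ 1 1) : ℂ) *
    (((γ 1 0 : ℤ) : ℂ) * (z : ℂ) + ((γ 1 1 : ℤ) : ℂ)) ^ (1 / 2 : ℂ)

/-- `f` is a cusp form of weight `3/2` for `Γ_0(N)` with the character `χ`, in Shimura's normalisation: holomorphic,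
`f(γ z) = χ(d) j(γ, z) ^ 3 f(z)` for `γ ∈ Γ_0(N)`, and zero at all cusps: `|f(γ z)| |c z + d| ^ (-3/2) → 0` for `Im z → ∞`, for all
`γ ∈ SL_2(ℤ)`. -/
structure IsCuspForm (N : ℕ) (χ : DirichletCharacter ℂ N) (f : ℍ → ℂ) : Prop where
  holo : DifferentiableOn ℂ (fun z => f (ofComplex z)) {z | 0 < z.im}
  transf : ∀ γ ∈ Gamma0 N, ∀ z : ℍ, f (γ • z) = χ ((γ 1 1 : ℤ) : ZMod N) * jfac γ z ^ 3 * f z
  zero : ∀ γ : SL(2, ℤ), Tendsto (fun z : ℍ => ‖f (γ • z)‖ *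
    ‖((γ 1 0 : ℤ) : ℂ) * (z : ℂ) + ((γ 1 1 : ℤ) : ℂ)‖ ^ (-(3 / 2) : ℝ)) atImInfty (𝓝 0)

theorem denom_eq (γ : SL(2, ℤ)) (z : ℍ) :
    denom γ z = ((γ 1 0 : ℤ) : ℂ) * (z : ℂ) + ((γ 1 1 : ℤ) : ℂ) := by
  rw [ModularGroup.denom_apply]

theorem sym_sq (γ : SL(2, ℤ)) : (sym (γ 1 0) (γ 1 1) : ℂ) ^ 2 = 1 := by
  have hcop : IsCoprime (γ 1 0) (γ 1 1) := Matrix.SpecialLinearGroup.isCoprime_row γ 1
  have h1 : (γ 1 0).gcd ((γ 1 1).natAbs : ℤ) = 1 := by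
    have h0 := Int.isCoprime_iff_gcd_eq_one.1 hcop
    simpa [Int.gcd, Int.natAbs_abs] using h0
  have h2 := jacobiSym.sq_one h1
  have h3 : sym (γ 1 0) (γ 1 1) ^ 2 = 1 := by
    unfold sym
    rw [mul_pow, h2]
    split_ifs <;> norm_num
  exact_mod_cast h3

theorem jfac_pow (γ : SL(2, ℤ)) (z : ℍ) : jfac γ z ^ 12 = denom γ z ^ 6 := by
  unfold jfac
  rw [mul_pow, mul_pow]
  have h1 : ((if γ 1 1 % 4 = 1 then (1 : ℂ) else Complex.I)⁻¹) ^ 12 = 1 := by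
    split_ifs
    · simp
    · rw [inv_pow, show (12 : ℕ) = 4 * 3 by norm_num, pow_mul, Complex.I_pow_four]
      simp
  have h2 : (sym (γ 1 0) (γ 1 1) : ℂ) ^ 12 = 1 := by
    rw [show (12 : ℕ) = 2 * 6 by norm_num, pow_mul, sym_sq, one_pow]
  have h3 : ((((γ 1 0 : ℤ) : ℂ) * (z : ℂ) + ((γ 1 1 : ℤ) : ℂ)) ^ (1 / 2 : ℂ)) ^ 12 = denom γ z ^ 6 := by
    rw [denom_eq, ← Complex.cpow_nat_mul]
    rw [show ((12 : ℕ) : ℂ) * (1 / 2) = ((6 : ℕ) : ℂ) by push_cast; norm_num, Complex.cpow_natCast]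
  rw [h1, h2, h3]
  ring

theorem bound (N : ℕ) [NeZero N] (χ : DirichletCharacter ℂ N) (f : ℍ → ℂ) (hf : IsCuspForm N χ f) :
    ∃ C : ℝ, 0 ≤ C ∧ ∀ z : ℍ, ‖f z‖ ≤ C * z.im ^ (-(3 / 4) : ℝ) := by
  have hslash : ∀ γ : SL(2, ℤ), ∀ z : ℍ, ((fun w : ℍ => f w ^ 4) ∣[(6 : ℤ)] γ) z =
      f (γ • z) ^ 4 * denom γ z ^ (-6 : ℤ) := fun γ z => by
    rw [SL_slash_apply]
  have hinv : ∀ γ ∈ Gamma1 N, (fun w : ℍ => f w ^ 4) ∣[(6 : ℤ)] γ = fun w : ℍ => f w ^ 4 := by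
    intro γ hγ
    funext z
    have hγ0 := Gamma1_in_Gamma0 N hγ
    have hd : ((γ 1 1 : ℤ) : ZMod N) = 1 := ((Gamma1_mem N γ).1 hγ).2.1
    have h1 := hf.transf γ hγ0 z
    rw [hd, map_one, one_mul] at h1
    have h2 : f (γ • z) ^ 4 = denom γ z ^ 6 * f z ^ 4 := by
      rw [h1, mul_pow, ← pow_mul, ← jfac_pow]
    rw [hslash, h2]
    have h3 : denom γ z ≠ 0 := denom_ne_zero _ _
    rw [zpow_neg]
    have h4 : denom γ z ^ (6 : ℤ) = denom γ z ^ 6 := by norm_cast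
    rw [h4]
    field_simp
  have hzero : ∀ γ : SL(2, ℤ), IsZeroAtImInfty ((fun w : ℍ => f w ^ 4) ∣[(6 : ℤ)] γ) := by
    intro γ
    rw [IsZeroAtImInfty, ZeroAtFilter, tendsto_zero_iff_norm_tendsto_zero]
    have h1 := (hf.zero γ).pow 4
    rw [zero_pow (by norm_num)] at h1
    refine h1.congr fun z => ?_
    rw [hslash, norm_mul, norm_pow, mul_pow, norm_zpow, denom_eq]
    congr 1
    have h0 : 0 ≤ ‖((γ 1 0 : ℤ) : ℂ) * (z : ℂ) + ((γ 1 1 : ℤ) : ℂ)‖ := norm_nonneg _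
    rw [← Real.rpow_mul_natCast h0, ← Real.rpow_intCast]
    norm_num
  let F : CuspForm ((Gamma1 N).map (mapGL ℝ)) 6 :=
    { toFun := fun z => f z ^ 4
      slash_action_eq' := by
        rintro g ⟨γ, hγ, rfl⟩
        exact hinv γ hγ
      holo' := by
        rw [UpperHalfPlane.mdifferentiable_iff]
        exact hf.holo.pow 4
      zero_at_cusps' := by
        intro c hc
        have hc' : IsCusp c 𝒮ℒ := by
          rwa [Subgroup.IsArithmetic.isCusp_iff_isCusp_SL2Z] at hc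
        rw [OnePoint.isZeroAt_iff_forall_SL2Z hc']
        exact fun γ _ => hzero γ }
  obtain ⟨C, hC⟩ := CuspFormClass.exists_bound F
  have hC0 : 0 ≤ C := by
    have h1 := hC I
    have h2 : 0 ≤ C / UpperHalfPlane.I.im ^ ((6 : ℤ) / 2 : ℝ) := (norm_nonneg _).trans h1
    simpa using h2
  refine ⟨C ^ (1 / 4 : ℝ), by positivity, fun z => ?_⟩
  have h1 : ‖f z‖ ^ 4 ≤ C / z.im ^ ((6 : ℤ) / 2 : ℝ) := by
    have h2 := hC z
    have h3 : F z = f z ^ 4 := rfl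
    rw [h3, norm_pow] at h2
    exact h2
  have hy := z.im_pos
  have h2 : (C ^ (1 / 4 : ℝ) * z.im ^ (-(3 / 4) : ℝ)) ^ 4 = C / z.im ^ ((6 : ℤ) / 2 : ℝ) := by
    have e1 : ((6 : ℤ) / 2 : ℝ) = 3 := by norm_num
    have e2 : C / z.im ^ (3 : ℝ) = C * z.im ^ (-3 : ℝ) := by
      rw [Real.rpow_neg hy.le]
      rfl
    rw [e1, e2, mul_pow, ← Real.rpow_mul_natCast hC0, ← Real.rpow_mul_natCast hy.le]
    norm_num
  rw [← h2] at h1
  exact (pow_le_pow_iff_left₀ (norm_nonneg _) (by positivity) (by norm_num)).1 h1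

end

end Pool.Agent.U857.AF
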