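import Pool.Agent.U857.AF.Bessel
import Pool.Agent.U857.AF.Cusp

/-! The mean square of the coefficients, and the number of the exceptions to the bound `|a(n)| ≤ n ^ (1 / 4 + ε)`. -/

set_option autoImplicit false

namespace Pool.Agent.U857.AF

open Finset UpperHalfPlane

noncomputable section

/-- `a` is the sequence of the Fourier coefficients of `f`: `f(z) = ∑ a(n) e(n z)`, `n ≥ 0`. -/
def Coefficients (f : ℍ → ℂ) (a : ℕ → ℂ) : Prop :=
  ∀ z : ℍ, HasSum (fun n : ℕ => a n * Complex.exp (2 * Real.pi * Complex.I * n * (z : ℂ))) (f z)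

theorem mean_square {f : ℍ → ℂ} {a : ℕ → ℂ} (ha : Coefficients f a) {C : ℝ} (hC : 0 ≤ C)
    (hf : ∀ z : ℍ, ‖f z‖ ≤ C * z.im ^ (-(3 / 4) : ℝ)) :
    ∃ C' : ℝ, 0 ≤ C' ∧ ∀ X : ℕ, 1 ≤ X → ∑ n ∈ range (X + 1), ‖a n‖ ^ 2 ≤ C' * (X : ℝ) ^ (3 / 2 : ℝ) := by
  refine ⟨C ^ 2 * Real.exp (4 * Real.pi), by positivity, fun X hX => ?_⟩
  have hX0 : (0 : ℝ) < X := by exact_mod_cast hX
  obtain ⟨y, hy⟩ : ∃ y : ℝ, y = 1 / X := ⟨_, rfl⟩
  have hy0 : 0 < y := by rw [hy]; positivity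
  obtain ⟨c, hc⟩ : ∃ c : ℕ → ℂ, ∀ n, c n = a n * ((Real.exp (-(2 * Real.pi * n * y)) : ℝ) : ℂ) := ⟨_, fun n => rfl⟩
  have hterm : ∀ (x : ℝ) (n : ℕ), a n * Complex.exp (2 * Real.pi * Complex.I * n * ((x : ℂ) + y * Complex.I)) =
      c n * Complex.exp (2 * Real.pi * Complex.I * n * x) := by
    intro x n
    rw [hc, mul_assoc (a n), Complex.ofReal_exp, ← Complex.exp_add]
    congr 2
    push_cast
    have hI : Complex.I * Complex.I = -1 := Complex.I_mul_I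
    linear_combination (2 * Real.pi * n * y : ℂ) * hI
  have hz : ∀ x : ℝ, HasSum (fun n : ℕ => c n * Complex.exp (2 * Real.pi * Complex.I * n * x))
      (f ⟨(x : ℂ) + y * Complex.I, by simpa using hy0⟩) := by
    intro x
    have h1 := ha ⟨(x : ℂ) + y * Complex.I, by simpa using hy0⟩
    simp only at h1
    simpa only [hterm] using h1
  have hsum : Summable fun n => ‖c n‖ := by
    have h1 := (hz 0).summable.norm
    simpa using h1
  have hB := bessel c hsum (C * (X : ℝ) ^ (3 / 4 : ℝ)) (by positivity) (fun x => by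
    rw [(hz x).tsum_eq]
    refine (hf _).trans (le_of_eq ?_)
    have h1 : (⟨(x : ℂ) + y * Complex.I, by simpa using hy0⟩ : ℍ).im = y := by
      simp [UpperHalfPlane.im]
    rw [h1, hy, one_div, Real.rpow_neg (by positivity), ← Real.inv_rpow (by positivity), inv_inv]) (range (X + 1))
  have h1 : ∀ n ∈ range (X + 1), ‖a n‖ ^ 2 ≤ Real.exp (4 * Real.pi) * ‖c n‖ ^ 2 := by
    intro n hn
    have hnX : (n : ℝ) ≤ X := by
      have := Finset.mem_range.1 hn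
      exact_mod_cast Nat.lt_succ_iff.1 this
    rw [hc, norm_mul, Complex.norm_real, Real.norm_of_nonneg (Real.exp_pos _).le, mul_pow, ← Real.exp_nat_mul]
    have h2 : 1 ≤ Real.exp (4 * Real.pi) * Real.exp (((2 : ℕ) : ℝ) * -(2 * Real.pi * n * y)) := by
      rw [← Real.exp_add]
      apply Real.one_le_exp
      have h3 : n * y ≤ 1 := by
        rw [hy, mul_one_div, div_le_one hX0]
        exact hnX
      have hpi := Real.pi_pos
      push_cast
      nlinarith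
    calc ‖a n‖ ^ 2 = ‖a n‖ ^ 2 * 1 := (mul_one _).symm
      _ ≤ ‖a n‖ ^ 2 * (Real.exp (4 * Real.pi) * Real.exp (((2 : ℕ) : ℝ) * -(2 * Real.pi * n * y))) :=
          mul_le_mul_of_nonneg_left h2 (by positivity)
      _ = _ := by ring
  calc ∑ n ∈ range (X + 1), ‖a n‖ ^ 2 ≤ ∑ n ∈ range (X + 1), Real.exp (4 * Real.pi) * ‖c n‖ ^ 2 := sum_le_sum h1
    _ = Real.exp (4 * Real.pi) * ∑ n ∈ range (X + 1), ‖c n‖ ^ 2 := by rw [mul_sum]
    _ ≤ Real.exp (4 * Real.pi) * (C * (X : ℝ) ^ (3 / 4 : ℝ)) ^ 2 := mul_le_mul_of_nonneg_left hB (Real.exp_pos _).le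
    _ = _ := by
        rw [mul_pow, ← Real.rpow_mul_natCast hX0.le]
        norm_num
        ring

/-- the exceptions -/
def bad (a : ℕ → ℂ) (ε : ℝ) (n : ℕ) : Prop := (n : ℝ) ^ (1 / 4 + ε) < ‖a n‖

open Classical in
theorem count {a : ℕ → ℂ} {C : ℝ} (hC : 0 ≤ C)
    (h : ∀ X : ℕ, 1 ≤ X → ∑ n ∈ range (X + 1), ‖a n‖ ^ 2 ≤ C * (X : ℝ) ^ (3 / 2 : ℝ)) {ε : ℝ} (hε : 0 < ε)
    (hε2 : ε < 1 / 2) :
    ∃ K : ℝ, 0 ≤ K ∧ ∀ X : ℕ, (((Icc 1 X).filter (bad a ε)).card : ℝ) ≤ K * (X : ℝ) ^ (1 - 2 * ε) := by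
  obtain ⟨σ, hσ⟩ : ∃ σ, σ = 1 - 2 * ε := ⟨_, rfl⟩
  have hσ0 : 0 < σ := by rw [hσ]; linarith
  have h2σ : (2 : ℝ) ^ (-σ) < 1 := Real.rpow_lt_one_of_one_lt_of_neg (by norm_num) (by linarith)
  have hden : 0 < 1 - (2 : ℝ) ^ (-σ) := by linarith
  obtain ⟨K, hK⟩ : ∃ K, K = 4 * C / (1 - (2 : ℝ) ^ (-σ)) := ⟨_, rfl⟩
  have hK0 : 0 ≤ K := by rw [hK]; positivity
  have hKeq : K * (2 : ℝ) ^ (-σ) + 4 * C = K := by
    rw [hK]
    field_simp
    ring
  refine ⟨K, hK0, fun X => ?_⟩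
  rw [← hσ]
  induction X using Nat.strong_induction_on with
  | _ X ih =>
    rcases Nat.eq_zero_or_pos X with rfl | hX
    · simp only [show (Icc 1 0 : Finset ℕ) = ∅ by decide, filter_empty, card_empty, Nat.cast_zero]
      positivity
    · have hX0 : (0 : ℝ) < X := by exact_mod_cast hX
      have ih2 := ih (X / 2) (Nat.div_lt_self hX (by norm_num))
      have hsub : (Icc 1 X).filter (bad a ε) ⊆ (Icc 1 (X / 2)).filter (bad a ε) ∪ (Ioc (X / 2) X).filter (bad a ε) := by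
        intro n hn
        simp only [mem_filter, mem_Icc, mem_union, mem_Ioc] at hn ⊢
        obtain ⟨⟨h1, h2⟩, h3⟩ := hn
        by_cases h4 : n ≤ X / 2
        · exact Or.inl ⟨⟨h1, h4⟩, h3⟩
        · exact Or.inr ⟨⟨by omega, h2⟩, h3⟩
      have hcard : (((Icc 1 X).filter (bad a ε)).card : ℝ) ≤
          ((Icc 1 (X / 2)).filter (bad a ε)).card + ((Ioc (X / 2) X).filter (bad a ε)).card := by
        exact_mod_cast (card_le_card hsub).trans (card_union_le _ _)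
      have hhalf : (((X / 2 : ℕ) : ℝ)) ^ σ ≤ (2 : ℝ) ^ (-σ) * (X : ℝ) ^ σ := by
        have h1 : ((X / 2 : ℕ) : ℝ) ≤ (X : ℝ) / 2 := Nat.cast_div_le
        calc (((X / 2 : ℕ) : ℝ)) ^ σ ≤ ((X : ℝ) / 2) ^ σ := Real.rpow_le_rpow (Nat.cast_nonneg _) h1 hσ0.le
          _ = _ := by
            rw [Real.div_rpow hX0.le (by norm_num), Real.rpow_neg (by norm_num)]
            field_simp
      have htop : (((Ioc (X / 2) X).filter (bad a ε)).card : ℝ) ≤ 4 * C * (X : ℝ) ^ σ := by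
        have h1 : ∀ n ∈ (Ioc (X / 2) X).filter (bad a ε), ((X : ℝ) / 2) ^ (1 / 2 + 2 * ε) ≤ ‖a n‖ ^ 2 := by
          intro n hn
          simp only [mem_filter, mem_Ioc] at hn
          obtain ⟨⟨h1, h2⟩, h3⟩ := hn
          have h4 : (X : ℝ) / 2 ≤ n := by
            rw [div_le_iff₀ (by norm_num)]
            have : X ≤ n * 2 := by omega
            exact_mod_cast this
          have h5 : ((n : ℝ) ^ (1 / 4 + ε)) ^ 2 ≤ ‖a n‖ ^ 2 := pow_le_pow_left₀ (by positivity) h3.le 2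
          have h6 : ((n : ℝ) ^ (1 / 4 + ε)) ^ 2 = (n : ℝ) ^ (1 / 2 + 2 * ε) := by
            rw [← Real.rpow_mul_natCast (Nat.cast_nonneg _)]
            congr 1
            push_cast
            ring
          rw [← h6.symm] at h5
          exact (Real.rpow_le_rpow (by positivity) h4 (by linarith)).trans (h6 ▸ h5)
        have h2 : (((Ioc (X / 2) X).filter (bad a ε)).card : ℝ) * ((X : ℝ) / 2) ^ (1 / 2 + 2 * ε) ≤
            C * (X : ℝ) ^ (3 / 2 : ℝ) := by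
          calc (((Ioc (X / 2) X).filter (bad a ε)).card : ℝ) * ((X : ℝ) / 2) ^ (1 / 2 + 2 * ε)
              = ∑ n ∈ (Ioc (X / 2) X).filter (bad a ε), ((X : ℝ) / 2) ^ (1 / 2 + 2 * ε) := by
                rw [sum_const, nsmul_eq_mul]
            _ ≤ ∑ n ∈ (Ioc (X / 2) X).filter (bad a ε), ‖a n‖ ^ 2 := sum_le_sum h1
            _ ≤ ∑ n ∈ range (X + 1), ‖a n‖ ^ 2 := by
                refine sum_le_sum_of_subset_of_nonneg (fun n hn => ?_) fun _ _ _ => by positivity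
                simp only [mem_filter, mem_Ioc, mem_range] at hn ⊢
                omega
            _ ≤ _ := h X hX
        have h3 : (0 : ℝ) < ((X : ℝ) / 2) ^ (1 / 2 + 2 * ε) := Real.rpow_pos_of_pos (by positivity) _
        have h4 : C * (X : ℝ) ^ (3 / 2 : ℝ) ≤ 4 * C * (X : ℝ) ^ σ * ((X : ℝ) / 2) ^ (1 / 2 + 2 * ε) := by
          have e1 : ((X : ℝ) / 2) ^ (1 / 2 + 2 * ε) = (X : ℝ) ^ (1 / 2 + 2 * ε) / (2 : ℝ) ^ (1 / 2 + 2 * ε) :=
            Real.div_rpow hX0.le (by norm_num) _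
          have e2 : (X : ℝ) ^ (3 / 2 : ℝ) = (X : ℝ) ^ σ * (X : ℝ) ^ (1 / 2 + 2 * ε) := by
            rw [← Real.rpow_add hX0]
            congr 1
            rw [hσ]
            ring
          have e3 : (2 : ℝ) ^ (1 / 2 + 2 * ε) ≤ 4 := by
            calc (2 : ℝ) ^ (1 / 2 + 2 * ε) ≤ (2 : ℝ) ^ (2 : ℝ) :=
                  Real.rpow_le_rpow_of_exponent_le (by norm_num) (by linarith)
              _ = 4 := by norm_num
          have e4 : (0 : ℝ) < (2 : ℝ) ^ (1 / 2 + 2 * ε) := by positivity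
          rw [e1, e2]
          have e5 : 1 ≤ 4 / (2 : ℝ) ^ (1 / 2 + 2 * ε) := by rwa [le_div_iff₀ e4, one_mul]
          calc C * ((X : ℝ) ^ σ * (X : ℝ) ^ (1 / 2 + 2 * ε))
              = C * ((X : ℝ) ^ σ * (X : ℝ) ^ (1 / 2 + 2 * ε)) * 1 := (mul_one _).symm
            _ ≤ C * ((X : ℝ) ^ σ * (X : ℝ) ^ (1 / 2 + 2 * ε)) * (4 / (2 : ℝ) ^ (1 / 2 + 2 * ε)) :=
                mul_le_mul_of_nonneg_left e5 (by positivity)
            _ = _ := by ring
        exact le_of_mul_le_mul_right (h2.trans h4) h3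
      calc (((Icc 1 X).filter (bad a ε)).card : ℝ) ≤ _ := hcard
        _ ≤ K * ((2 : ℝ) ^ (-σ) * (X : ℝ) ^ σ) + 4 * C * (X : ℝ) ^ σ :=
            add_le_add (ih2.trans (mul_le_mul_of_nonneg_left hhalf hK0)) htop
        _ = (K * (2 : ℝ) ^ (-σ) + 4 * C) * (X : ℝ) ^ σ := by ring
        _ = _ := by rw [hKeq]

end

end Pool.Agent.U857.AF
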