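import Pool.Agent.U857.AF.Count
import Pool.Agent.U449.BV.V

/-! The bound near the values of vector functions of two variables. -/

set_option autoImplicit false

namespace Pool.Agent.U857.AF

open Finset UpperHalfPlane Pool.Agent.U449.BV

noncomputable section

/-- The bound of Q1 with the exponent `1 / 4 + ε` for all linear combinations of the forms with the coefficients `a l`, at ALL the
`r = (r_1, …, r_k)` in the window of length `W` around `x`: `|∑ c_l a_l(r_i)| ≤ (∑ |c_l|) r_i ^ (1 / 4 + ε)` for all `i` and all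
complex `c_l`, if `r_i ≥ 1` and `|r_i - x_i| ≤ W` for all `i`. -/
def Near {k m : ℕ} (a : Fin m → ℕ → ℂ) (ε : ℝ) (W : ℝ) (x : Fin k → ℝ) : Prop :=
  ∀ r : Fin k → ℕ, (∀ i, 1 ≤ r i) → (∀ i, |(r i : ℝ) - x i| ≤ W) →
    ∀ (c : Fin m → ℂ) (i : Fin k), ‖∑ l, c l * a l (r i)‖ ≤ (∑ l, ‖c l‖) * (r i : ℝ) ^ (1 / 4 + ε)

open Classical in
theorem family {m : ℕ} (a : Fin m → ℕ → ℂ) {ε : ℝ}
    (h : ∀ l, ∃ K : ℝ, 0 ≤ K ∧ ∀ X : ℕ, (((Icc 1 X).filter (bad (a l) ε)).card : ℝ) ≤ K * (X : ℝ) ^ (1 - 2 * ε)) :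
    ∃ K : ℝ, 0 ≤ K ∧ ∀ X : ℕ, (((Icc 1 X).filter (fun n => ∃ l, bad (a l) ε n)).card : ℝ) ≤
      K * (X : ℝ) ^ (1 - 2 * ε) := by
  choose K hK0 hK using h
  refine ⟨∑ l, K l, sum_nonneg fun l _ => hK0 l, fun X => ?_⟩
  have hsub : (Icc 1 X).filter (fun n => ∃ l, bad (a l) ε n) ⊆ univ.biUnion fun l => (Icc 1 X).filter (bad (a l) ε) := by
    intro n hn
    rw [mem_filter] at hn
    obtain ⟨h1, l, h2⟩ := hn
    rw [mem_biUnion]
    exact ⟨l, mem_univ l, mem_filter.2 ⟨h1, h2⟩⟩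
  calc (((Icc 1 X).filter (fun n => ∃ l, bad (a l) ε n)).card : ℝ)
      ≤ ∑ l, (((Icc 1 X).filter (bad (a l) ε)).card : ℝ) := by
        exact_mod_cast (card_le_card hsub).trans card_biUnion_le
    _ ≤ ∑ l, K l * (X : ℝ) ^ (1 - 2 * ε) := sum_le_sum fun l _ => hK l X
    _ = _ := by rw [sum_mul]

open Classical in
theorem vec {k : ℕ} (hk : 1 ≤ k) (b : ℕ → Prop) {ε : ℝ}
    (h : ∃ K : ℝ, 0 ≤ K ∧ ∀ X : ℕ, (((Icc 1 X).filter b).card : ℝ) ≤ K * (X : ℝ) ^ (1 - 2 * ε)) :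
    ∃ C : ℝ, ∀ X : ℕ, 1 ≤ X →
      ({w : Fin k → ℕ | (∀ i, 1 ≤ w i ∧ w i ≤ X) ∧ w ∈ {w : Fin k → ℕ | ∃ i, b (w i)}}.ncard : ℝ) ≤
        C * (X : ℝ) ^ ((k : ℝ) - 2 * ε) := by
  obtain ⟨K, hK0, hK⟩ := h
  refine ⟨∑ _i : Fin k, K, fun X hX => ?_⟩
  have hX0 : (0 : ℝ) < X := by exact_mod_cast hX
  obtain ⟨P, hP⟩ : ∃ P : Fin k → Finset (Fin k → ℕ), ∀ i, P i = Fintype.piFinset
      (fun j => if j = i then (Icc 1 X).filter b else Icc 1 X) := ⟨_, fun i => rfl⟩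
  have hsub : {w : Fin k → ℕ | (∀ i, 1 ≤ w i ∧ w i ≤ X) ∧ w ∈ {w : Fin k → ℕ | ∃ i, b (w i)}} ⊆
      ((univ.biUnion P : Finset (Fin k → ℕ)) : Set (Fin k → ℕ)) := by
    rintro w ⟨h1, i, h2⟩
    rw [mem_coe, mem_biUnion]
    refine ⟨i, mem_univ i, ?_⟩
    rw [hP, Fintype.mem_piFinset]
    intro j
    split_ifs with hj
    · subst hj
      rw [mem_filter, mem_Icc]
      exact ⟨h1 j, h2⟩
    · rw [mem_Icc]
      exact h1 j
  have hcard : ∀ i, ((P i).card : ℝ) ≤ K * (X : ℝ) ^ ((k : ℝ) - 2 * ε) := by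
    intro i
    have h1 : (P i).card = ((Icc 1 X).filter b).card * X ^ (k - 1) := by
      rw [hP, Fintype.card_piFinset, ← mul_prod_erase univ
        (fun j => (if j = i then (Icc 1 X).filter b else Icc 1 X).card) (mem_univ i), if_pos rfl]
      congr 1
      rw [prod_congr rfl (g := fun _ => X) (fun j hj => by rw [if_neg (ne_of_mem_erase hj)]; simp), prod_const,
        card_erase_of_mem (mem_univ i), card_univ, Fintype.card_fin]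
    rw [h1]
    push_cast
    calc (((Icc 1 X).filter b).card : ℝ) * (X : ℝ) ^ (k - 1)
        ≤ K * (X : ℝ) ^ (1 - 2 * ε) * (X : ℝ) ^ (k - 1) := mul_le_mul_of_nonneg_right (hK X) (by positivity)
      _ = _ := by
        rw [mul_assoc, ← Real.rpow_natCast, ← Real.rpow_add hX0, Nat.cast_sub hk]
        congr 2
        push_cast
        ring
  calc ({w : Fin k → ℕ | (∀ i, 1 ≤ w i ∧ w i ≤ X) ∧ w ∈ {w : Fin k → ℕ | ∃ i, b (w i)}}.ncard : ℝ)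
      ≤ ((univ.biUnion P).card : ℝ) := by
        have h1 := Set.ncard_le_ncard hsub (finite_toSet _)
        rw [Set.ncard_coe_finset] at h1
        exact_mod_cast h1
    _ ≤ ∑ i, ((P i).card : ℝ) := by exact_mod_cast card_biUnion_le
    _ ≤ ∑ _i : Fin k, K * (X : ℝ) ^ ((k : ℝ) - 2 * ε) := sum_le_sum fun i _ => hcard i
    _ = _ := by rw [sum_mul]

theorem near {k m : ℕ} {N : Fin m → ℕ} {χ : ∀ l, DirichletCharacter ℂ (N l)} {f : Fin m → ℍ → ℂ} {a : Fin m → ℕ → ℂ}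
    (hk : 1 ≤ k) (hN : ∀ l, N l ≠ 0) (hf : ∀ l, IsCuspForm (N l) (χ l) (f l)) (ha : ∀ l, Coefficients (f l) (a l))
    {ε κ : ℝ} (hε : 0 < ε) (hε2 : ε < 1 / 2) (hκ : 0 ≤ κ) :
    OnProductsV k ((k : ℝ) - 2 * ε + k * κ) κ (Near a ε) := by
  obtain ⟨K, hK0, hK⟩ := family a (ε := ε) (fun l => by
    have : NeZero (N l) := ⟨hN l⟩
    obtain ⟨C, hC, h1⟩ := bound (N l) (χ l) (f l) (hf l)
    obtain ⟨C', hC', h2⟩ := mean_square (ha l) hC h1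
    exact count hC' h2 hε hε2)
  obtain ⟨C, hC⟩ := vec (ε := ε) hk (fun n => ∃ l, bad (a l) ε n) ⟨K, hK0, fun X => by convert hK X⟩
  have hk' : (1 : ℝ) ≤ k := by exact_mod_cast hk
  refine (on_products_tuples (k := k) 1 {w : Fin k → ℕ | ∃ i, ∃ l, bad (a l) ε (w i)} (s := (k : ℝ) - 2 * ε) (C := C)
    (by linarith) hκ hC).mono (fun W x _ h' r hr hrx c i => ?_)
  have h1 : ∀ l, ‖a l (r i)‖ ≤ (r i : ℝ) ^ (1 / 4 + ε) := fun l => by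
    by_contra hcon
    exact h' r hr hrx ⟨i, l, not_le.1 hcon⟩
  calc ‖∑ l, c l * a l (r i)‖ ≤ ∑ l, ‖c l * a l (r i)‖ := norm_sum_le _ _
    _ ≤ ∑ l, ‖c l‖ * (r i : ℝ) ^ (1 / 4 + ε) := sum_le_sum fun l _ => by
        rw [norm_mul]
        exact mul_le_mul_of_nonneg_left (h1 l) (norm_nonneg _)
    _ = _ := by rw [sum_mul]

/-- the version for finite fields -/
theorem field {k : ℕ} {e κ : ℝ} {P : ℝ → (Fin k → ℝ) → Prop} (h : OnProductsV k e κ P) :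
    ∀ δ : ℝ, e < δ → δ ≤ k → ∀ D : ℕ, ∃ ρ : ℝ, 0 < ρ ∧ ∃ p₀ : ℕ, ∀ (p : ℕ) [Fact p.Prime], p₀ ≤ p →
      ∀ (K : Type) [Field K] [Algebra (ZMod p) K] (b : Module.Basis (Fin k) (ZMod p) K) (F : MvPolynomial (Fin 2) K),
        F.totalDegree ≤ D → (∃ m ∈ F.support, m 0 ≠ 0 ∧ m 1 ≠ 0) →
      ∀ (g h : K → K) (A B : Finset K), (p : ℝ) ^ δ ≤ A.card → (p : ℝ) ^ δ ≤ B.card →
        ({z : K × K | z.1 ∈ A ∧ z.2 ∈ B ∧ ¬ P ((p : ℝ) ^ κ)
          (fun i => (((b.repr (MvPolynomial.eval ![z.1, z.2] F + g z.1 + h z.2) i).val : ℕ) : ℝ))}.ncard : ℝ) ≤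
          (p : ℝ) ^ (-ρ) * (A.card * B.card) := by
  intro δ hδ hδ1 D
  obtain ⟨ρ, hρ, X₀, hX₀⟩ := h δ hδ hδ1 D
  refine ⟨ρ, hρ, ⌈X₀⌉₊, ?_⟩
  intro p _ hp K _ _ b F hF hm g h A B hA hB
  refine hX₀ p ((Nat.le_ceil X₀).trans (by exact_mod_cast hp)) K K A B
    (fun u v i => (((b.repr (MvPolynomial.eval ![u, v] F + g u + h v) i).val : ℕ) : ℝ)) hA hB
    (fun u _ v _ i => ?_) (coordinates p k K b D F hF hm g h A B)
  rw [abs_of_nonneg (Nat.cast_nonneg _)]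
  exact_mod_cast (ZMod.val_lt _).le

end

end Pool.Agent.U857.AF
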